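import Mathlib

set_option autoImplicit false

/-! # Project HB (helper89), leaf NGA (helper169): the abstract part -/

namespace Pool.Agent.N169.HB

open Polynomial

/-- an irreducible polynomial over `L` stays irreducible over a field in which `L` is relatively
algebraically closed -/
theorem irr_map {L F : Type*} [Field L] [Field F] [Algebra L F] (g : L[X]) (hg : g.Monic)
    (hgi : Irreducible g) (H : ∀ α : F, IsIntegral L α → α ∈ (algebraMap L F).range) :
    Irreducible (g.map (algebraMap L F)) := by
  have hgm : (g.map (algebraMap L F)).Monic := hg.map _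
  rw [hgm.irreducible_iff_natDegree]
  refine ⟨?_, ?_⟩
  · intro h1
    have : g = 1 := Polynomial.map_injective _ (algebraMap L F).injective (by rw [h1, Polynomial.map_one])
    rw [this] at hgi
    exact not_irreducible_one hgi
  · intro p q hp hq hpq
    have key : ∀ r : F[X], r.Monic → r ∣ g.map (algebraMap L F) → ∃ r0 : L[X], r0.map (algebraMap L F) = r := by
      intro r hr hrd
      have h1 := integralClosure.mem_lifts_of_monic_of_dvd_map F hg hr hrd
      have h2 : ∀ n, r.coeff n ∈ (algebraMap L F).range := by
        intro n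
        rw [Polynomial.lifts_iff_coeff_lifts] at h1
        obtain ⟨c, hc⟩ := h1 n
        exact H _ (hc ▸ c.2)
      have h3 : r ∈ Polynomial.lifts (algebraMap L F) := by
        rw [Polynomial.lifts_iff_coeff_lifts]
        intro n
        exact h2 n
      exact (Polynomial.mem_lifts _).1 h3
    obtain ⟨p0, rfl⟩ := key p hp ⟨q, hpq.symm⟩
    obtain ⟨q0, rfl⟩ := key q hq ⟨_, by rw [mul_comm]; exact hpq.symm⟩
    rw [← Polynomial.map_mul] at hpq
    have h4 : p0 * q0 = g := Polynomial.map_injective _ (algebraMap L F).injective hpq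
    rcases hgi.isUnit_or_isUnit h4.symm with h | h
    · left
      rw [Polynomial.natDegree_map]
      exact Polynomial.natDegree_eq_zero_of_isUnit h
    · right
      rw [Polynomial.natDegree_map]
      exact Polynomial.natDegree_eq_zero_of_isUnit h

/-- finitely many elements of `E'` lie in `E(β)` -/
theorem exists_prim {L M E E' : Type*} [Field L] [Field M] [Algebra L M] [Field E] [Field E']
    [Algebra L E] [Algebra L E'] [Algebra E E'] [Algebra M E'] [IsScalarTower L M E']
    [IsScalarTower L E E'] [CharZero L] [Algebra.IsAlgebraic L M]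
    (hgen : IntermediateField.adjoin E (Set.range (algebraMap M E')) = ⊤) (s : Finset E') :
    ∃ β : M, ∀ a ∈ s, ∃ c : E[X], aeval (algebraMap M E' β) c = a := by
  classical
  -- the finite set of elements of `M`
  have h1 : ∀ a : E', ∃ T : Finset M, a ∈ IntermediateField.adjoin E ((algebraMap M E') '' (T : Set M)) := by
    intro a
    have ha : a ∈ IntermediateField.adjoin E (Set.range (algebraMap M E')) := by
      rw [hgen]; trivial
    obtain ⟨T, hT, haT⟩ := IntermediateField.exists_finset_of_mem_adjoin ha
    have hT' : ∀ t ∈ T, ∃ m : M, algebraMap M E' m = t := fun t ht => hT ht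
    choose! φ hφ using hT'
    refine ⟨T.image φ, ?_⟩
    refine IntermediateField.adjoin.mono E _ _ ?_ haT
    intro t ht
    exact ⟨φ t, Finset.mem_coe.2 (Finset.mem_image_of_mem φ ht), hφ t ht⟩
  choose T hT using h1
  set U : Finset M := s.biUnion T with hU
  have : FiniteDimensional L (IntermediateField.adjoin L (U : Set M)) :=
    IntermediateField.finiteDimensional_adjoin (fun x _ => Algebra.IsIntegral.isIntegral x)
  obtain ⟨b, hb⟩ := Field.exists_primitive_element L (IntermediateField.adjoin L (U : Set M))
  refine ⟨(b : M), ?_⟩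
  intro a ha
  have hbint : IsIntegral E (algebraMap M E' (b : M)) := by
    have h2 : IsIntegral L (b : M) := Algebra.IsIntegral.isIntegral _
    exact (h2.map (IsScalarTower.toAlgHom L M E')).tower_top
  have h3 : ∀ u ∈ U, algebraMap M E' u ∈ IntermediateField.adjoin E {algebraMap M E' (b : M)} := by
    intro u hu
    have hu1 : u ∈ IntermediateField.adjoin L (U : Set M) := IntermediateField.subset_adjoin _ _ hu
    have hu2 : (⟨u, hu1⟩ : IntermediateField.adjoin L (U : Set M)) ∈ IntermediateField.adjoin L {b} := by
      rw [hb]; trivial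
    have hbi : IsIntegral L b := Algebra.IsIntegral.isIntegral b
    rw [← IntermediateField.mem_toSubalgebra, IntermediateField.adjoin_simple_toSubalgebra_of_isAlgebraic hbi.isAlgebraic,
      Algebra.adjoin_singleton_eq_range_aeval] at hu2
    obtain ⟨p, hp⟩ := hu2
    have hp1 : aeval (b : M) p = u := by
      have := congrArg (IntermediateField.val (IntermediateField.adjoin L (U : Set M))) hp
      simpa [Polynomial.aeval_algHom_apply] using this
    have hp2 : algebraMap M E' u = aeval (algebraMap M E' (b : M)) (p.map (algebraMap L E)) := by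
      rw [← hp1, Polynomial.aeval_map_algebraMap]
      exact (Polynomial.aeval_algebraMap_apply E' (b : M) p).symm
    rw [hp2]
    exact IntermediateField.algebra_adjoin_le_adjoin E _ (Polynomial.aeval_mem_adjoin_singleton E _)
  have h4 : a ∈ IntermediateField.adjoin E {algebraMap M E' (b : M)} := by
    have h5 : IntermediateField.adjoin E ((algebraMap M E') '' (T a : Set M)) ≤
        IntermediateField.adjoin E {algebraMap M E' (b : M)} := by
      rw [IntermediateField.adjoin_le_iff]
      rintro _ ⟨u, hu, rfl⟩
      exact h3 u (by rw [hU, Finset.mem_biUnion]; exact ⟨a, ha, hu⟩)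
    exact h5 (hT a)
  rw [← IntermediateField.mem_toSubalgebra, IntermediateField.adjoin_simple_toSubalgebra_of_isAlgebraic hbint.isAlgebraic,
      Algebra.adjoin_singleton_eq_range_aeval] at h4
  obtain ⟨c, hc⟩ := h4
  exact ⟨c, hc⟩

/-- the abstract form of NGA -/
theorem nga_abs {L M E E' : Type*} [Field L] [Field M] [Algebra L M] [Field E] [Field E']
    [Algebra L E] [Algebra L E'] [Algebra E E'] [Algebra M E'] [IsScalarTower L M E']
    [IsScalarTower L E E'] [CharZero L] [Algebra.IsAlgebraic L M]
    (hgen : IntermediateField.adjoin E (Set.range (algebraMap M E')) = ⊤)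
    (f : E[X]) (hf : Irreducible f) (hf' : ¬ Irreducible (f.map (algebraMap E E'))) :
    ∃ (m : L[X]) (A q : E[X]), Irreducible m ∧ 2 ≤ m.natDegree ∧
      (m.map (algebraMap L E)).comp A = f * q := by
  classical
  have : Fact (Irreducible f) := ⟨hf⟩
  by_contra hcon
  push Not at hcon
  apply hf'
  have hf0 : f ≠ 0 := hf.ne_zero
  -- `L` is algebraically closed in `F`
  have H : ∀ α : AdjoinRoot f, IsIntegral L α → α ∈ (algebraMap L (AdjoinRoot f)).range := by
    intro α hα
    by_contra hα'
    have h1 : (minpoly L α).natDegree ≠ 1 := fun h => hα' (minpoly.natDegree_eq_one_iff.1 h)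
    have h2 : 0 < (minpoly L α).natDegree := minpoly.natDegree_pos hα
    obtain ⟨A, hA⟩ := AdjoinRoot.mk_surjective α
    have h3 : f ∣ ((minpoly L α).map (algebraMap L E)).comp A := by
      rw [← AdjoinRoot.mk_eq_zero]
      have h4 : aeval α (minpoly L α) = 0 := minpoly.aeval L α
      have h5 : aeval α ((minpoly L α).map (algebraMap L E)) = 0 := by
        rw [Polynomial.aeval_map_algebraMap, h4]
      rw [← AdjoinRoot.aeval_eq, Polynomial.aeval_comp, AdjoinRoot.aeval_eq, hA, h5]
    obtain ⟨q, hq⟩ := h3
    exact hcon _ A q (minpoly.irreducible hα) (by omega) hq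
  have hfm0 : f.map (algebraMap E E') ≠ 0 := by
    rwa [Ne, Polynomial.map_eq_zero]
  have hfmu : ¬ IsUnit (f.map (algebraMap E E')) := by
    rw [Polynomial.isUnit_map]
    exact hf.not_isUnit
  obtain ⟨f1, hf1, f2, hf2⟩ := WfDvdMonoid.exists_irreducible_factor hfmu hfm0
  have hf20 : f2 ≠ 0 := by
    rintro rfl
    rw [mul_zero] at hf2
    exact hfm0 hf2
  have hdeg : f.natDegree = f1.natDegree + f2.natDegree := by
    rw [← Polynomial.natDegree_map (algebraMap E E'), hf2, Polynomial.natDegree_mul hf1.ne_zero hf20]
  by_cases hlt : f1.natDegree < f.natDegree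
  swap
  · have h2 : f2.natDegree = 0 := by omega
    have h3 : IsUnit f2 := by
      rw [Polynomial.isUnit_iff_degree_eq_zero, Polynomial.degree_eq_natDegree hf20, h2]
      rfl
    rw [hf2]
    exact (irreducible_mul_isUnit h3).2 hf1
  exfalso
  -- a primitive element
  obtain ⟨β, hβ⟩ := exists_prim (L := L) (M := M) (E := E) (E' := E') hgen f1.coeffs
  have hβint : IsIntegral L β := Algebra.IsIntegral.isIntegral β
  set g : L[X] := minpoly L β with hgdef
  have hgm : g.Monic := minpoly.monic hβint
  have hgi : Irreducible g := minpoly.irreducible hβint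
  have hG : Irreducible (g.map (algebraMap L (AdjoinRoot f))) := irr_map g hgm hgi H
  have hgE : (g.map (algebraMap L E)).Monic := hgm.map _
  have hgroot : aeval (algebraMap M E' β) (g.map (algebraMap L E)) = 0 := by
    rw [Polynomial.aeval_map_algebraMap, Polynomial.aeval_algebraMap_apply, hgdef, minpoly.aeval, map_zero]
  have hc : ∀ j : ℕ, ∃ c : E[X], c.degree < (g.map (algebraMap L E)).degree ∧
      aeval (algebraMap M E' β) c = f1.coeff j := by
    intro j
    have : ∃ c : E[X], aeval (algebraMap M E' β) c = f1.coeff j := by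
      by_cases h0 : f1.coeff j = 0
      · exact ⟨0, by rw [h0, map_zero]⟩
      · exact hβ _ (Polynomial.coeff_mem_coeffs h0)
    obtain ⟨c, hc⟩ := this
    refine ⟨c %ₘ (g.map (algebraMap L E)), Polynomial.degree_modByMonic_lt _ hgE, ?_⟩
    rw [← hc]
    conv_rhs => rw [← Polynomial.modByMonic_add_div c (g.map (algebraMap L E))]
    rw [map_add, map_mul, hgroot, zero_mul, add_zero]
  choose c hcd hcv using hc
  -- the common root
  obtain ⟨x, hx⟩ := IsAlgClosed.exists_aeval_eq_zero (AlgebraicClosure E') f1
    (Polynomial.degree_pos_of_irreducible hf1).ne'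
  have hfx : f.eval₂ (algebraMap E (AlgebraicClosure E')) x = 0 := by
    rw [← Polynomial.aeval_def, ← Polynomial.aeval_map_algebraMap E', hf2, map_mul, hx, zero_mul]
  let ψ : AdjoinRoot f →+* AlgebraicClosure E' := AdjoinRoot.lift (algebraMap E (AlgebraicClosure E')) x hfx
  have hψof : ∀ z : E, ψ (AdjoinRoot.of f z) = algebraMap E (AlgebraicClosure E') z :=
    fun z => AdjoinRoot.lift_of hfx
  have hψroot : ψ (AdjoinRoot.root f) = x := AdjoinRoot.lift_root hfx
  set b : AlgebraicClosure E' := algebraMap E' (AlgebraicClosure E') (algebraMap M E' β) with hb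
  have hcb : ∀ j, eval₂ (algebraMap E (AlgebraicClosure E')) b (c j) =
      algebraMap E' (AlgebraicClosure E') (f1.coeff j) := by
    intro j
    rw [← Polynomial.aeval_def, hb, Polynomial.aeval_algebraMap_apply, hcv]
  have hGb : (g.map (algebraMap L (AdjoinRoot f))).eval₂ ψ b = 0 := by
    have e1 : algebraMap L (AdjoinRoot f) = (AdjoinRoot.of f).comp (algebraMap L E) := by
      rw [← AdjoinRoot.algebraMap_eq, ← IsScalarTower.algebraMap_eq]
    rw [e1, ← Polynomial.map_map, Polynomial.eval₂_map]
    have e2 : ψ.comp (AdjoinRoot.of f) = algebraMap E (AlgebraicClosure E') := RingHom.ext hψof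
    rw [e2, ← Polynomial.aeval_def, hb, Polynomial.aeval_algebraMap_apply, hgroot, map_zero]
  -- the polynomial in `Y` over `F`
  set P : (AdjoinRoot f)[X] := ∑ j ∈ Finset.range (f1.natDegree + 1),
    C (AdjoinRoot.root f ^ j) * (c j).map (AdjoinRoot.of f) with hP
  have hPb : P.eval₂ ψ b = 0 := by
    rw [hP, Polynomial.eval₂_finsetSum]
    have e2 : ψ.comp (AdjoinRoot.of f) = algebraMap E (AlgebraicClosure E') := RingHom.ext hψof
    have e3 : ∀ j ∈ Finset.range (f1.natDegree + 1),
        eval₂ ψ b (C (AdjoinRoot.root f ^ j) * (c j).map (AdjoinRoot.of f)) =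
        algebraMap E' (AlgebraicClosure E') (f1.coeff j) * x ^ j := by
      intro j _
      rw [Polynomial.eval₂_mul, Polynomial.eval₂_C, Polynomial.eval₂_map, e2, hcb, map_pow, hψroot,
        mul_comm]
    rw [Finset.sum_congr rfl e3, ← hx, Polynomial.aeval_eq_sum_range]
    refine Finset.sum_congr rfl (fun j _ => ?_)
    rw [Algebra.smul_def]
  have hPdeg : P.degree < (g.map (algebraMap L (AdjoinRoot f))).degree := by
    rw [Polynomial.degree_map]
    have hg0 : (⊥ : WithBot ℕ) < g.degree := by
      rw [bot_lt_iff_ne_bot, Ne, Polynomial.degree_eq_bot]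
      exact hgm.ne_zero
    rw [hP]
    refine (Polynomial.degree_sum_le _ _).trans_lt ?_
    rw [Finset.sup_lt_iff hg0]
    intro j _
    rw [← Polynomial.smul_eq_C_mul]
    refine (Polynomial.degree_smul_le _ _).trans_lt ?_
    rw [Polynomial.degree_map]
    have := hcd j
    rwa [Polynomial.degree_map] at this
  have hP0 : P = 0 := by
    by_contra hP0
    have hndvd : ¬ (g.map (algebraMap L (AdjoinRoot f))) ∣ P := by
      intro hd
      exact absurd (Polynomial.degree_le_of_dvd hd hP0) (not_le.2 hPdeg)
    have hcop : IsCoprime (g.map (algebraMap L (AdjoinRoot f))) P := (hG.coprime_iff_not_dvd).2 hndvd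
    obtain ⟨u, v, huv⟩ := hcop
    have := congrArg (Polynomial.eval₂ ψ b) huv
    rw [Polynomial.eval₂_add, Polynomial.eval₂_mul, Polynomial.eval₂_mul, hGb, hPb, mul_zero, mul_zero,
      add_zero, Polynomial.eval₂_one] at this
    exact zero_ne_one this
  have hc0 : ∀ j ∈ Finset.range (f1.natDegree + 1), c j = 0 := by
    intro j hj
    ext i
    rw [Polynomial.coeff_zero]
    set R : E[X] := ∑ j ∈ Finset.range (f1.natDegree + 1), C ((c j).coeff i) * X ^ j with hR
    have hRmk : AdjoinRoot.mk f R = 0 := by
      have h1 := congrArg (fun p => Polynomial.coeff p i) hP0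
      simp only [hP, Polynomial.finsetSum_coeff, Polynomial.coeff_C_mul, Polynomial.coeff_map,
        Polynomial.coeff_zero] at h1
      rw [hR, map_sum, ← h1]
      refine Finset.sum_congr rfl (fun j _ => ?_)
      rw [map_mul, map_pow, AdjoinRoot.mk_C, AdjoinRoot.mk_X, mul_comm]
    rw [AdjoinRoot.mk_eq_zero] at hRmk
    have hRdeg : R.degree < f.degree := by
      rw [hR, Polynomial.degree_eq_natDegree hf0]
      refine (Polynomial.degree_sum_le _ _).trans_lt ?_
      rw [Finset.sup_lt_iff (WithBot.bot_lt_coe _)]
      intro j hj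
      refine (Polynomial.degree_C_mul_X_pow_le _ _).trans_lt ?_
      rw [Finset.mem_range] at hj
      exact_mod_cast lt_of_lt_of_le hj (by omega)
    have hR0 : R = 0 := by
      by_contra hR0
      exact absurd (Polynomial.degree_le_of_dvd hRmk hR0) (not_le.2 hRdeg)
    have h2 := congrArg (fun p => Polynomial.coeff p j) hR0
    simp only [hR, Polynomial.finsetSum_coeff, Polynomial.coeff_C_mul_X_pow, Polynomial.coeff_zero] at h2
    rw [Finset.sum_ite_eq, if_pos hj] at h2
    exact h2
  apply hf1.ne_zero
  ext j
  rw [Polynomial.coeff_zero]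
  by_cases hj : j ∈ Finset.range (f1.natDegree + 1)
  · rw [← hcv j, hc0 j hj, map_zero]
  · rw [Finset.mem_range, not_lt] at hj
    exact Polynomial.coeff_eq_zero_of_natDegree_lt (by omega)

end Pool.Agent.N169.HB
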