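import Pool.Agent.N89.HB.Stm2
import Pool.Agent.N169.HB.NgaAbs

set_option autoImplicit false

/-! # Project HB (helper89), leaf NGA (helper169) -/

namespace Pool.Agent.N169.HB.Nga

open Polynomial NumberField Pool.Agent.N89.HX Pool.Agent.N89.HG Pool.Agent.N89.HB

variable (L : Type) [Field L] [NumberField L] (k : ℕ)

theorem inj0 : Function.Injective ((algebraMap (MvPolynomial (Fin k) (𝓞 L)) (Fr k (𝓞 L))).comp
    (MvPolynomial.C : 𝓞 L →+* MvPolynomial (Fin k) (𝓞 L))) := by
  rw [RingHom.coe_comp]
  exact (IsFractionRing.injective (MvPolynomial (Fin k) (𝓞 L)) (Fr k (𝓞 L))).comp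
    (MvPolynomial.C_injective (Fin k) (𝓞 L))

/-- the embedding of `L` in `L(T)` -/
noncomputable def gam : L →+* Fr k (𝓞 L) := IsFractionRing.lift (inj0 L k)

theorem gam_coe (z : 𝓞 L) : gam L k (z : L) =
    algebraMap (MvPolynomial (Fin k) (𝓞 L)) (Fr k (𝓞 L)) (MvPolynomial.C z) :=
  IsFractionRing.lift_algebraMap (inj0 L k) z

theorem toA_inj : Function.Injective (toA L) := by
  unfold toA
  rw [RingHom.coe_comp]
  exact (algebraMap L (AlgebraicClosure L)).injective.comp (IsFractionRing.injective (𝓞 L) L)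

theorem inj1 : Function.Injective ((algebraMap (MvPolynomial (Fin k) (AlgebraicClosure L))
    (Fr k (AlgebraicClosure L))).comp (MvPolynomial.map (toA L))) := by
  rw [RingHom.coe_comp]
  exact (IsFractionRing.injective (MvPolynomial (Fin k) (AlgebraicClosure L))
    (Fr k (AlgebraicClosure L))).comp (MvPolynomial.map_injective _ (toA_inj L))

/-- the embedding of `L(T)` in `M(T)` -/
noncomputable def io : Fr k (𝓞 L) →+* Fr k (AlgebraicClosure L) := IsFractionRing.lift (inj1 L k)

theorem io_alg (p : MvPolynomial (Fin k) (𝓞 L)) :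
    io L k (algebraMap (MvPolynomial (Fin k) (𝓞 L)) (Fr k (𝓞 L)) p) =
      algebraMap (MvPolynomial (Fin k) (AlgebraicClosure L)) (Fr k (AlgebraicClosure L))
        (MvPolynomial.map (toA L) p) :=
  IsFractionRing.lift_algebraMap (inj1 L k) p

theorem io_gam : (io L k).comp (gam L k) =
    (algebraMap (AlgebraicClosure L) (Fr k (AlgebraicClosure L))).comp
      (algebraMap L (AlgebraicClosure L)) := by
  apply IsLocalization.ringHom_ext (nonZeroDivisors (𝓞 L))
  ext z
  rw [RingHom.comp_apply, RingHom.comp_apply, RingHom.comp_apply, RingHom.comp_apply]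
  erw [gam_coe]
  rw [io_alg, MvPolynomial.map_C]
  rw [IsScalarTower.algebraMap_apply (AlgebraicClosure L)
    (MvPolynomial (Fin k) (AlgebraicClosure L)) (Fr k (AlgebraicClosure L)), MvPolynomial.algebraMap_eq]
  rfl

theorem gpol_map {e : ℕ} (h : Fin (e + 1) → MvPolynomial (Fin k) (𝓞 L)) :
    (gpol (RingHom.id (𝓞 L)) h).map (io L k) = gpol (toA L) h := by
  unfold gpol
  rw [Polynomial.map_sum]
  refine Finset.sum_congr rfl (fun i _ => ?_)
  rw [Polynomial.map_mul, Polynomial.map_pow, Polynomial.map_X, Polynomial.map_C, MvPolynomial.map_id,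
    io_alg]

theorem main_aux {e : ℕ} (h : Fin (e + 1) → MvPolynomial (Fin k) (𝓞 L))
    (h1 : Irreducible (gpol (RingHom.id (𝓞 L)) h)) (h2 : ¬ Irreducible (gpol (toA L) h)) :
    ∃ (m : L[X]) (A q : (Fr k (𝓞 L))[X]), Irreducible m ∧ 2 ≤ m.natDegree ∧
    (m.map (gam L k)).comp A = gpol (RingHom.id (𝓞 L)) h * q := by
  letI : Algebra L (Fr k (𝓞 L)) := (gam L k).toAlgebra
  letI : Algebra (Fr k (𝓞 L)) (Fr k (AlgebraicClosure L)) := (io L k).toAlgebra
  have hst : IsScalarTower L (AlgebraicClosure L) (Fr k (AlgebraicClosure L)) := inferInstance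
  have hst2 : IsScalarTower L (Fr k (𝓞 L)) (Fr k (AlgebraicClosure L)) := by
    apply IsScalarTower.of_algebraMap_eq
    intro x
    rw [IsScalarTower.algebraMap_apply L (AlgebraicClosure L) (Fr k (AlgebraicClosure L))]
    exact (RingHom.congr_fun (io_gam L k) x).symm
  refine Pool.Agent.N169.HB.nga_abs (L := L) (M := AlgebraicClosure L) (E := Fr k (𝓞 L))
    (E' := Fr k (AlgebraicClosure L)) ?_ (gpol (RingHom.id (𝓞 L)) h) h1 ?_
  · rw [eq_top_iff]
    intro a _
    have hpoly : ∀ p : MvPolynomial (Fin k) (AlgebraicClosure L),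
        algebraMap (MvPolynomial (Fin k) (AlgebraicClosure L)) (Fr k (AlgebraicClosure L)) p ∈
        IntermediateField.adjoin (Fr k (𝓞 L))
          (Set.range (algebraMap (AlgebraicClosure L) (Fr k (AlgebraicClosure L)))) := by
      intro p
      induction p using MvPolynomial.induction_on with
      | C c =>
        apply IntermediateField.subset_adjoin
        refine ⟨c, ?_⟩
        rw [IsScalarTower.algebraMap_apply (AlgebraicClosure L)
          (MvPolynomial (Fin k) (AlgebraicClosure L)) (Fr k (AlgebraicClosure L)),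
          MvPolynomial.algebraMap_eq]
      | add p q hp hq => rw [map_add]; exact add_mem hp hq
      | mul_X p i hp =>
        rw [map_mul]
        refine mul_mem hp ?_
        have : algebraMap (MvPolynomial (Fin k) (AlgebraicClosure L)) (Fr k (AlgebraicClosure L))
            (MvPolynomial.X i) = algebraMap (Fr k (𝓞 L)) (Fr k (AlgebraicClosure L))
              (algebraMap (MvPolynomial (Fin k) (𝓞 L)) (Fr k (𝓞 L)) (MvPolynomial.X i)) := by
          have h3 := io_alg L k (MvPolynomial.X i)
          rw [MvPolynomial.map_X] at h3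
          exact h3.symm
        rw [this]
        exact IntermediateField.algebraMap_mem _ _
    obtain ⟨p, q, -, rfl⟩ := IsFractionRing.div_surjective (A := MvPolynomial (Fin k) (AlgebraicClosure L)) a
    exact div_mem (hpoly p) (hpoly q)
  · have h4 : (gpol (RingHom.id (𝓞 L)) h).map (algebraMap (Fr k (𝓞 L)) (Fr k (AlgebraicClosure L))) =
        gpol (toA L) h := gpol_map L k h
    rw [h4]
    exact h2

theorem main : S_NGA := by
  intro L _ _ k e h _ h1 h2
  obtain ⟨m, A, q, hm, hm2, hmq⟩ := main_aux L k h h1 h2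
  exact ⟨m, A, q, gam L k, hm, hm2, gam_coe L k, hmq⟩

end Pool.Agent.N169.HB.Nga
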